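import Pool.Agent.PRAR.H.Def

/-! # Section 8 (a), (b): N is polynomial; rank at nonzero points -/

set_option autoImplicit false
set_option linter.unusedSectionVars false

open scoped Classical

noncomputable section

namespace PRAR

variable {ι : Type} [Fintype ι] {F : Type} [Field F] [Fintype F]
variable {Y V : Type} [AddCommGroup Y] [Module F Y] [Fintype Y] [AddCommGroup V] [Module F V]
  [Fintype V]

theorem hc_NE_apply (A : Finset ι) (M : Finset ι → Y →ₗ[F] V) (ε : F)
    (x : {L : Finset ι // L ⊆ A} → Y) (L : {L : Finset ι // L ⊆ A}) :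
    NE A M ε x L = ∑ J1 : {L : Finset ι // L ⊆ A}, ∑ J2 : {L : Finset ι // L ⊆ A},
      if J1.1 ∪ J2.1 = L.1 then ε ^ (J1.1 ∩ J2.1).card • M J1.1 (x J2) else 0 := by
  simp only [NE, LinearMap.pi_apply, LinearMap.sum_apply]
  refine Finset.sum_congr rfl fun J1 _ => Finset.sum_congr rfl fun J2 _ => ?_
  split_ifs
  · simp only [LinearMap.smul_apply, LinearMap.comp_apply, LinearMap.proj_apply]
  · simp only [LinearMap.zero_apply]

/-- The coefficient of `ε ^ d`. -/
def hc_L (A : Finset ι) (M : Finset ι → Y →ₗ[F] V) (d : ℕ) :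
    ({L : Finset ι // L ⊆ A} → Y) →ₗ[F] ({L : Finset ι // L ⊆ A} → V) :=
  LinearMap.pi fun L => ∑ J1 : {L : Finset ι // L ⊆ A}, ∑ J2 : {L : Finset ι // L ⊆ A},
    if J1.1 ∪ J2.1 = L.1 ∧ (J1.1 ∩ J2.1).card = d then (M J1.1).comp (LinearMap.proj J2)
    else 0

theorem hc_L_apply (A : Finset ι) (M : Finset ι → Y →ₗ[F] V) (d : ℕ)
    (x : {L : Finset ι // L ⊆ A} → Y) (L : {L : Finset ι // L ⊆ A}) :
    hc_L A M d x L = ∑ J1 : {L : Finset ι // L ⊆ A}, ∑ J2 : {L : Finset ι // L ⊆ A},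
      if J1.1 ∪ J2.1 = L.1 ∧ (J1.1 ∩ J2.1).card = d then M J1.1 (x J2) else 0 := by
  simp only [hc_L, LinearMap.pi_apply, LinearMap.sum_apply]
  refine Finset.sum_congr rfl fun J1 _ => Finset.sum_congr rfl fun J2 _ => ?_
  split_ifs
  · simp only [LinearMap.comp_apply, LinearMap.proj_apply]
  · simp only [LinearMap.zero_apply]

theorem hc_main (A : Finset ι) (M : Finset ι → Y →ₗ[F] V) (ε : F) :
    NE A M ε = ∑ d ∈ Finset.range (A.card + 1), ε ^ d • hc_L A M d := by
  refine LinearMap.ext fun x => ?_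
  funext L
  rw [hc_NE_apply]
  simp only [LinearMap.sum_apply, LinearMap.smul_apply, Finset.sum_apply, Pi.smul_apply,
    hc_L_apply, Finset.smul_sum]
  conv_rhs => rw [Finset.sum_comm]
  refine Finset.sum_congr rfl fun J1 _ => ?_
  conv_rhs => rw [Finset.sum_comm]
  refine Finset.sum_congr rfl fun J2 _ => ?_
  have hcard : (J1.1 ∩ J2.1).card ∈ Finset.range (A.card + 1) := by
    rw [Finset.mem_range, Nat.lt_succ_iff]
    exact Finset.card_le_card (Finset.inter_subset_left.trans J1.2)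
  rw [Finset.sum_eq_single_of_mem _ hcard]
  · by_cases h : J1.1 ∪ J2.1 = L.1
    · rw [if_pos h, if_pos ⟨h, rfl⟩]
    · rw [if_neg h, if_neg (fun h' => h h'.1), smul_zero]
  · intro d _ hd
    rw [if_neg (fun h' => hd h'.2.symm), smul_zero]

theorem NE_poly (A : Finset ι) (M : Finset ι → Y →ₗ[F] V) :
    ∃ L : ℕ → ({L : Finset ι // L ⊆ A} → Y) →ₗ[F] ({L : Finset ι // L ⊆ A} → V),
      L 0 = NE A M 0 ∧ ∀ ε : F, NE A M ε = ∑ d ∈ Finset.range (A.card + 1), ε ^ d • L d := by
  refine ⟨hc_L A M, ?_, hc_main A M⟩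
  rw [hc_main A M 0, Finset.sum_eq_single_of_mem 0 (Finset.mem_range.mpr (Nat.succ_pos _))]
  · rw [pow_zero, one_smul]
  · intro d _ hd
    rw [zero_pow hd, zero_smul]

/-- The triangular change of coordinates. -/
def hc_E (W : Type) [AddCommGroup W] [Module F W] (A : Finset ι) (t : F) :
    ({L : Finset ι // L ⊆ A} → W) →ₗ[F] ({L : Finset ι // L ⊆ A} → W) :=
  LinearMap.pi fun L => ∑ J : {L : Finset ι // L ⊆ A},
    if J.1 ⊆ L.1 then t ^ J.1.card • (LinearMap.proj J : ({L : Finset ι // L ⊆ A} → W) →ₗ[F] W)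
    else 0

theorem hc_E_apply (W : Type) [AddCommGroup W] [Module F W] (A : Finset ι) (t : F)
    (w : {L : Finset ι // L ⊆ A} → W) (L : {L : Finset ι // L ⊆ A}) :
    hc_E W A t w L = ∑ J : {L : Finset ι // L ⊆ A},
      if J.1 ⊆ L.1 then t ^ J.1.card • w J else 0 := by
  simp only [hc_E, LinearMap.pi_apply, LinearMap.sum_apply]
  refine Finset.sum_congr rfl fun J _ => ?_
  split_ifs
  · simp only [LinearMap.smul_apply, LinearMap.proj_apply]
  · simp only [LinearMap.zero_apply]

theorem hc_E_inj (W : Type) [AddCommGroup W] [Module F W] (A : Finset ι) (t : F) (ht : t ≠ 0) :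
    Function.Injective (hc_E (F := F) W A t) := by
  rw [← LinearMap.ker_eq_bot, LinearMap.ker_eq_bot']
  intro w hw
  have key : ∀ n : ℕ, ∀ L : {L : Finset ι // L ⊆ A}, L.1.card = n → w L = 0 := by
    intro n
    induction n using Nat.strong_induction_on with
    | _ n ih =>
      intro L hL
      have h1 : hc_E W A t w L = 0 := by rw [hw]; rfl
      rw [hc_E_apply, Finset.sum_eq_single_of_mem L (Finset.mem_univ L)] at h1
      · rw [if_pos (Finset.Subset.refl _)] at h1
        exact (smul_eq_zero.mp h1).resolve_left (pow_ne_zero _ ht)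
      · intro J _ hJ
        by_cases hJL : J.1 ⊆ L.1
        · have hlt : J.1.card < n := by
            rw [← hL]
            exact Finset.card_lt_card (hJL.ssubset_of_ne fun h => hJ (Subtype.ext h))
          rw [if_pos hJL, ih _ hlt J rfl, smul_zero]
        · rw [if_neg hJL]
  funext L
  exact key _ L rfl

theorem hc_S_apply (A : Finset ι) (M : Finset ι → Y →ₗ[F] V) (t : F)
    (L : {L : Finset ι // L ⊆ A}) (y : Y) :
    (∑ J ∈ L.1.powerset, t ^ J.card • M J) y =
      ∑ J : {L : Finset ι // L ⊆ A}, if J.1 ⊆ L.1 then t ^ J.1.card • M J.1 y else 0 := by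
  simp only [LinearMap.sum_apply, LinearMap.smul_apply]
  rw [← Finset.sum_filter]
  symm
  refine Finset.sum_bij (fun J _ => J.1) ?_ ?_ ?_ ?_
  · intro J hJ
    exact Finset.mem_powerset.mpr (Finset.mem_filter.mp hJ).2
  · intro J1 _ J2 _ h
    exact Subtype.ext h
  · intro J hJ
    have h := Finset.mem_powerset.mp hJ
    exact ⟨⟨J, h.trans L.2⟩, Finset.mem_filter.mpr ⟨Finset.mem_univ _, h⟩, rfl⟩
  · intro J _
    rfl

theorem hc_comp (A : Finset ι) (M : Finset ι → Y →ₗ[F] V) (t : F)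
    (x : {L : Finset ι // L ⊆ A} → Y) (L : {L : Finset ι // L ⊆ A}) :
    hc_E V A t (NE A M t x) L =
      (∑ J ∈ L.1.powerset, t ^ J.card • M J) (hc_E Y A t x L) := by
  rw [hc_S_apply, hc_E_apply]
  have h1 : ∀ K : {L : Finset ι // L ⊆ A},
      (if K.1 ⊆ L.1 then t ^ K.1.card • NE A M t x K else 0) =
      ∑ J1 : {L : Finset ι // L ⊆ A}, ∑ J2 : {L : Finset ι // L ⊆ A},
        if J1.1 ∪ J2.1 = K.1 then
          (if J1.1 ∪ J2.1 ⊆ L.1 then (t ^ J1.1.card * t ^ J2.1.card) • M J1.1 (x J2) else 0)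
        else 0 := by
    intro K
    by_cases hK : K.1 ⊆ L.1
    · rw [if_pos hK, hc_NE_apply, Finset.smul_sum]
      refine Finset.sum_congr rfl fun J1 _ => ?_
      rw [Finset.smul_sum]
      refine Finset.sum_congr rfl fun J2 _ => ?_
      by_cases h : J1.1 ∪ J2.1 = K.1
      · rw [if_pos h, if_pos h, if_pos (h.subset.trans hK), smul_smul, ← h, ← pow_add, ← pow_add,
          Finset.card_union_add_card_inter]
      · rw [if_neg h, if_neg h, smul_zero]
    · rw [if_neg hK]
      symm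
      refine Finset.sum_eq_zero fun J1 _ => Finset.sum_eq_zero fun J2 _ => ?_
      by_cases h : J1.1 ∪ J2.1 = K.1
      · rw [if_pos h, if_neg (fun h' => hK (h.symm.subset.trans h'))]
      · rw [if_neg h]
  rw [Finset.sum_congr rfl fun K _ => h1 K, Finset.sum_comm]
  refine Finset.sum_congr rfl fun J1 _ => ?_
  rw [Finset.sum_comm, hc_E_apply, map_sum, Finset.smul_sum]
  have h2 : ∀ J2 : {L : Finset ι // L ⊆ A},
      (∑ K : {L : Finset ι // L ⊆ A}, if J1.1 ∪ J2.1 = K.1 then
          (if J1.1 ∪ J2.1 ⊆ L.1 then (t ^ J1.1.card * t ^ J2.1.card) • M J1.1 (x J2) else 0)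
        else 0) =
      if J1.1 ∪ J2.1 ⊆ L.1 then (t ^ J1.1.card * t ^ J2.1.card) • M J1.1 (x J2) else 0 := by
    intro J2
    rw [Finset.sum_eq_single_of_mem ⟨J1.1 ∪ J2.1, Finset.union_subset J1.2 J2.2⟩
      (Finset.mem_univ _)]
    · rw [if_pos rfl]
    · intro K _ hK
      rw [if_neg (fun h => hK (Subtype.ext h.symm))]
  rw [Finset.sum_congr rfl fun J2 _ => h2 J2]
  by_cases hJ1 : J1.1 ⊆ L.1
  · rw [if_pos hJ1]
    refine Finset.sum_congr rfl fun J2 _ => ?_
    by_cases hJ2 : J2.1 ⊆ L.1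
    · rw [if_pos (Finset.union_subset hJ1 hJ2), if_pos hJ2, map_smul, smul_smul]
    · rw [if_neg (fun h => hJ2 (Finset.union_subset_right h)), if_neg hJ2, map_zero, smul_zero]
  · rw [if_neg hJ1]
    exact Finset.sum_eq_zero fun J2 _ => if_neg (fun h => hJ1 (Finset.union_subset_left h))

theorem NE_rank (A : Finset ι) (M : Finset ι → Y →ₗ[F] V) (t : F) (ht : t ≠ 0) (r : ℕ)
    (h : ∀ L, L ⊆ A → Module.finrank F (LinearMap.range (∑ J ∈ L.powerset, t ^ J.card • M J)) ≤ r) :
    Module.finrank F (LinearMap.range (NE A M t)) ≤ 2 ^ A.card * r := by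
  have : Module.Finite F V := Module.Finite.of_finite
  let S : {L : Finset ι // L ⊆ A} → (Y →ₗ[F] V) := fun L => ∑ J ∈ L.1.powerset, t ^ J.card • M J
  let inc : ((L : {L : Finset ι // L ⊆ A}) → LinearMap.range (S L)) →ₗ[F]
      ({L : Finset ι // L ⊆ A} → V) :=
    LinearMap.pi fun L => (LinearMap.range (S L)).subtype.comp (LinearMap.proj L)
  have hinc : ∀ z L, inc z L = (z L : V) := fun z L => rfl
  have h1 : Module.finrank F (LinearMap.range (NE A M t)) =
      Module.finrank F ((LinearMap.range (NE A M t)).map (hc_E V A t)) :=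
    LinearEquiv.finrank_eq (Submodule.equivMapOfInjective _ (hc_E_inj V A t ht) _)
  have h2 : (LinearMap.range (NE A M t)).map (hc_E V A t) ≤ LinearMap.range inc := by
    rintro _ ⟨_, ⟨x, rfl⟩, rfl⟩
    refine ⟨fun L => ⟨S L (hc_E Y A t x L), LinearMap.mem_range_self _ _⟩, ?_⟩
    funext L
    rw [hinc]
    exact (hc_comp A M t x L).symm
  have h3 : Module.finrank F (LinearMap.range inc) ≤
      Module.finrank F ((L : {L : Finset ι // L ⊆ A}) → LinearMap.range (S L)) :=
    LinearMap.finrank_range_le inc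
  have h4 : Module.finrank F ((L : {L : Finset ι // L ⊆ A}) → LinearMap.range (S L)) =
      ∑ L : {L : Finset ι // L ⊆ A}, Module.finrank F (LinearMap.range (S L)) :=
    Module.finrank_pi_fintype F
  have h5 : ∑ L : {L : Finset ι // L ⊆ A}, Module.finrank F (LinearMap.range (S L)) ≤
      ∑ _L : {L : Finset ι // L ⊆ A}, r := Finset.sum_le_sum fun L _ => h L.1 L.2
  have h6 : Fintype.card {L : Finset ι // L ⊆ A} = 2 ^ A.card := by
    rw [← Finset.card_powerset, Fintype.card_subtype]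
    congr 1
    ext L
    simp
  rw [Finset.sum_const, Finset.card_univ, h6, smul_eq_mul] at h5
  rw [h1]
  exact (Submodule.finrank_mono h2).trans (h3.trans (h4.le.trans h5))

end PRAR
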