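import Pool.Agent.PRAR.H.Def

/-! # Section 8 (c): rank at zero -/

set_option autoImplicit false
set_option linter.unusedSectionVars false

open scoped Classical

noncomputable section

namespace PRAR

variable {ι : Type} [Fintype ι] {F : Type} [Field F] [Fintype F]
variable {Y V : Type} [AddCommGroup Y] [Module F Y] [Fintype Y] [AddCommGroup V] [Module F V]
  [Fintype V]

theorem hd_rank {K E1 E2 E3 : Type} [Field K] [AddCommGroup E1] [Module K E1]
    [AddCommGroup E2] [Module K E2] [AddCommGroup E3] [Module K E3] [FiniteDimensional K E2]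
    (N : E1 →ₗ[K] E2) (P : E2 →ₗ[K] E3) (W : Submodule K E2)
    (hW : W ≤ LinearMap.range N) (hP : ∀ w ∈ W, P w = 0) :
    Module.finrank K (LinearMap.range (P.comp N)) + Module.finrank K W ≤
      Module.finrank K (LinearMap.range N) := by
  have h1 := LinearMap.finrank_range_add_finrank_ker (P.domRestrict (LinearMap.range N))
  have h2 : LinearMap.range (P.domRestrict (LinearMap.range N)) = LinearMap.range (P.comp N) := by
    ext z
    constructor
    · rintro ⟨⟨y, x, rfl⟩, rfl⟩
      exact ⟨x, rfl⟩
    · rintro ⟨x, rfl⟩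
      exact ⟨⟨N x, x, rfl⟩, rfl⟩
  have h3 : Module.finrank K W ≤
      Module.finrank K (LinearMap.ker (P.domRestrict (LinearMap.range N))) := by
    refine LinearMap.finrank_le_finrank_of_injective
      (f := LinearMap.codRestrict _ (Submodule.inclusion hW) ?_) ?_
    · intro w
      rw [LinearMap.mem_ker]
      exact hP w.1 w.2
    · intro a b hab
      have := congrArg (fun z => (z.1).1) hab
      exact Subtype.ext this
  rw [h2] at h1
  omega

theorem hd_NE (A : Finset ι) (M : Finset ι → Y →ₗ[F] V) (X : Finset ι → Y)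
    (L : {L : Finset ι // L ⊆ A}) :
    NE A M 0 (fun J => X J.1) L = ∑ J ∈ L.1.powerset, M J (X (L.1 \ J)) := by
  unfold NE
  rw [LinearMap.pi_apply, LinearMap.sum_apply]
  have hin : ∀ J1 : {L : Finset ι // L ⊆ A},
      (∑ J2 : {L : Finset ι // L ⊆ A},
        if J1.1 ∪ J2.1 = L.1 then (0 : F) ^ (J1.1 ∩ J2.1).card •
          ((M J1.1).comp (LinearMap.proj J2)) else 0 :
          ({L : Finset ι // L ⊆ A} → Y) →ₗ[F] V) (fun J => X J.1) =
      if J1.1 ⊆ L.1 then M J1.1 (X (L.1 \ J1.1)) else 0 := by
    intro J1
    rw [LinearMap.sum_apply]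
    have hsub : L.1 \ J1.1 ⊆ A := Finset.sdiff_subset.trans L.2
    rw [Finset.sum_eq_single (⟨L.1 \ J1.1, hsub⟩ : {L : Finset ι // L ⊆ A})]
    · by_cases h : J1.1 ⊆ L.1
      · have hu : J1.1 ∪ (L.1 \ J1.1) = L.1 := Finset.union_sdiff_of_subset h
        have hi : J1.1 ∩ (L.1 \ J1.1) = ∅ := by
          ext a
          simp
        rw [if_pos hu, if_pos h, hi]
        simp
      · have hu : J1.1 ∪ (L.1 \ J1.1) ≠ L.1 := by
          intro hu
          exact h (hu ▸ Finset.subset_union_left)
        rw [if_neg hu, if_neg h]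
        rfl
    · intro J2 _ hne
      by_cases hu : J1.1 ∪ J2.1 = L.1
      · rw [if_pos hu]
        have hi : (J1.1 ∩ J2.1).card ≠ 0 := by
          intro hc
          rw [Finset.card_eq_zero] at hc
          apply hne
          apply Subtype.ext
          show J2.1 = L.1 \ J1.1
          rw [← hu]
          ext a
          simp only [Finset.mem_sdiff, Finset.mem_union]
          constructor
          · intro ha
            refine ⟨Or.inr ha, fun hb => ?_⟩
            have : a ∈ J1.1 ∩ J2.1 := Finset.mem_inter.2 ⟨hb, ha⟩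
            rw [hc] at this
            exact absurd this (Finset.notMem_empty a)
          · rintro ⟨h1 | h1, h2⟩
            · exact absurd h1 h2
            · exact h1
        rw [zero_pow hi, zero_smul]
        rfl
      · rw [if_neg hu]
        rfl
    · intro h
      exact absurd (Finset.mem_univ _) h
  rw [Finset.sum_congr rfl (fun J1 _ => hin J1)]
  rw [← Finset.sum_subtype A.powerset (fun x => by simp)
    (fun J => if J ⊆ L.1 then M J (X (L.1 \ J)) else 0)]
  rw [← Finset.sum_filter]
  refine Finset.sum_congr ?_ (fun _ _ => rfl)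
  ext J
  simp only [Finset.mem_filter, Finset.mem_powerset]
  exact ⟨fun h => h.2, fun h => ⟨h.trans L.2, h⟩⟩

theorem NE_zero (A : Finset ι) (M : Finset ι → Y →ₗ[F] V) (G : V →ₗ[F] Y)
    (h1 : ∀ x, M ∅ (G (M ∅ x)) = M ∅ x) (h2 : ∀ w, G (M ∅ (G w)) = G w)
    (ξ : Finset ι → Y →ₗ[F] Y) (h0 : ∀ x, ξ ∅ x = x - G (M ∅ x))
    (hs : ∀ B : Finset ι, B.Nonempty → ∀ x, ξ B x =
      - G (∑ J ∈ B.powerset.erase ∅, M J (ξ (B \ J) x)))
    (M' : Y →ₗ[F] V) (hM : ∀ x, M' x = (∑ J ∈ A.powerset.erase ∅, M J (ξ (A \ J) x)) -
      M ∅ (G (∑ J ∈ A.powerset.erase ∅, M J (ξ (A \ J) x)))) :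
    2 ^ A.card * Module.finrank F (LinearMap.range (M ∅)) +
      Module.finrank F (LinearMap.range M') ≤ Module.finrank F (LinearMap.range (NE A M 0)) := by
  have : FiniteDimensional F V := Module.Finite.of_finite
  have : FiniteDimensional F Y := Module.Finite.of_finite
  set N := NE A M 0 with hN
  -- componentwise projection
  let P : ({L : Finset ι // L ⊆ A} → V) →ₗ[F] ({L : Finset ι // L ⊆ A} → V) :=
    LinearMap.pi fun L => ((M ∅).comp G).comp (LinearMap.proj L)
  have hPapp : ∀ w L, P w L = M ∅ (G (w L)) := fun w L => rfl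
  let Z : Y →ₗ[F] ({L : Finset ι // L ⊆ A} → Y) := LinearMap.pi fun B => ξ B.1
  let N' : Y →ₗ[F] ({L : Finset ι // L ⊆ A} → V) := N.comp Z
  -- components of N'
  have hN'app : ∀ x L, N' x L = ∑ J ∈ L.1.powerset, M J (ξ (L.1 \ J) x) := by
    intro x L
    exact hd_NE A M (fun B => ξ B x) L
  have hsplit : ∀ (x : Y) (L : Finset ι), ∑ J ∈ L.powerset, M J (ξ (L \ J) x) =
      (∑ J ∈ L.powerset.erase ∅, M J (ξ (L \ J) x)) -
        M ∅ (G (∑ J ∈ L.powerset.erase ∅, M J (ξ (L \ J) x))) := by
    intro x L
    rw [← Finset.add_sum_erase _ _ (Finset.empty_mem_powerset L), Finset.sdiff_empty]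
    rcases L.eq_empty_or_nonempty with hL | hL
    · subst hL
      have he : (∅ : Finset ι).powerset.erase ∅ = ∅ := by
        ext a
        simp
      rw [he, Finset.sum_empty, h0, map_sub, h1, sub_self]
      simp
    · rw [hs L hL, map_neg]
      abel
  have hN'A : ∀ x, N' x ⟨A, Finset.Subset.refl A⟩ = M' x := by
    intro x
    rw [hN'app, hM, hsplit]
  have hPN' : ∀ x, P (N' x) = 0 := by
    intro x
    funext L
    rw [hPapp, hN'app, hsplit, map_sub, map_sub, h1, sub_self]
    rfl
  -- rank of M'
  have hr1 : Module.finrank F (LinearMap.range M') ≤ Module.finrank F (LinearMap.range N') := by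
    have hc : M' = (LinearMap.proj (⟨A, Finset.Subset.refl A⟩ : {L : Finset ι // L ⊆ A})).comp N' := by
      ext x
      exact (hN'A x).symm
    rw [hc, LinearMap.range_comp]
    exact Submodule.finrank_map_le _ _
  have hr2 := hd_rank N P (LinearMap.range N') (by
    rintro _ ⟨x, rfl⟩
    exact ⟨Z x, rfl⟩) (by
    rintro _ ⟨x, rfl⟩
    exact hPN' x)
  -- rank of P ∘ N
  let I : ({L : Finset ι // L ⊆ A} → LinearMap.range G) →ₗ[F] ({L : Finset ι // L ⊆ A} → Y) :=
    LinearMap.pi fun L => (LinearMap.range G).subtype.comp (LinearMap.proj L)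
  have hIapp : ∀ x L, I x L = (x L).1 := fun x L => rfl
  have hinj : Function.Injective ((P.comp N).comp I) := by
    rw [← LinearMap.ker_eq_bot, LinearMap.ker_eq_bot']
    intro x hx
    have hxe : ∀ L, I x L = (fun B : Finset ι => if h : B ⊆ A then (x ⟨B, h⟩).1 else 0) L.1 := by
      intro L
      simp only [dif_pos L.2]
      rfl
    have hNx : ∀ L : {L : Finset ι // L ⊆ A}, N (I x) L = ∑ J ∈ L.1.powerset,
        M J ((fun B : Finset ι => if h : B ⊆ A then (x ⟨B, h⟩).1 else 0) (L.1 \ J)) := by
      intro L
      have h9 : I x = fun J => (fun B : Finset ι => if h : B ⊆ A then (x ⟨B, h⟩).1 else 0) J.1 :=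
        funext hxe
      have h10 := hd_NE A M (fun B : Finset ι => if h : B ⊆ A then (x ⟨B, h⟩).1 else 0) L
      rw [h9]
      exact h10
    have key : ∀ n : ℕ, ∀ L : {L : Finset ι // L ⊆ A}, L.1.card = n → (x L).1 = 0 := by
      intro n
      induction n using Nat.strong_induction_on with
      | _ n ih =>
        intro L hL
        have h3 : N (I x) L = M ∅ (x L).1 := by
          rw [hNx L, ← Finset.add_sum_erase _ _ (Finset.empty_mem_powerset L.1),
            Finset.sdiff_empty]
          rw [Finset.sum_eq_zero]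
          · simp only [dif_pos L.2, add_zero]
          · intro J hJ
            rw [Finset.mem_erase, Finset.mem_powerset] at hJ
            have hs' : L.1 \ J ⊆ A := Finset.sdiff_subset.trans L.2
            simp only [dif_pos hs']
            rw [ih (L.1 \ J).card (by
              rw [← hL]
              apply Finset.card_lt_card
              rw [Finset.ssubset_iff_subset_ne]
              refine ⟨Finset.sdiff_subset, fun he => ?_⟩
              have hne := Finset.nonempty_iff_ne_empty.2 hJ.1
              obtain ⟨a, ha⟩ := hne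
              have hb : a ∈ L.1 \ J := by
                rw [he]
                exact hJ.2 ha
              exact (Finset.mem_sdiff.1 hb).2 ha) ⟨L.1 \ J, hs'⟩ rfl, map_zero]
        have h4 : M ∅ (G (N (I x) L)) = 0 := by
          have := congrFun hx L
          exact this
        rw [h3, h1] at h4
        obtain ⟨w, hw⟩ := (x L).2
        rw [← hw] at h4 ⊢
        rw [← h2 w, h4, map_zero]
    funext L
    exact Subtype.ext (key _ L rfl)
  have hr3 : 2 ^ A.card * Module.finrank F (LinearMap.range (M ∅)) ≤
      Module.finrank F (LinearMap.range (P.comp N)) := by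
    have h5 : Module.finrank F ({L : Finset ι // L ⊆ A} → LinearMap.range G) ≤
        Module.finrank F (LinearMap.range (P.comp N)) := by
      rw [← LinearMap.finrank_range_of_inj hinj]
      exact Submodule.finrank_mono (LinearMap.range_comp_le_range _ _)
    have h6 : Module.finrank F ({L : Finset ι // L ⊆ A} → LinearMap.range G) =
        2 ^ A.card * Module.finrank F (LinearMap.range G) := by
      rw [Module.finrank_pi_fintype, Finset.sum_const, smul_eq_mul, Finset.card_univ]
      congr 1
      rw [Fintype.card_subtype, ← Finset.card_powerset]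
      congr 1
      ext J
      simp
    have h7 : Module.finrank F (LinearMap.range (M ∅)) ≤ Module.finrank F (LinearMap.range G) := by
      have h8 : LinearMap.range (M ∅) ≤ (LinearMap.range G).map (M ∅) := by
        rintro _ ⟨y, rfl⟩
        exact ⟨G (M ∅ y), ⟨_, rfl⟩, h1 y⟩
      exact (Submodule.finrank_mono h8).trans (Submodule.finrank_map_le _ _)
    calc 2 ^ A.card * Module.finrank F (LinearMap.range (M ∅))
        ≤ 2 ^ A.card * Module.finrank F (LinearMap.range G) := Nat.mul_le_mul_left _ h7
      _ ≤ _ := by rw [← h6]; exact h5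
  omega

end PRAR
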