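import Pool.Agent.PRAR.H.E

/-! # Section 8: cost of the correction -/

set_option autoImplicit false
set_option linter.unusedSectionVars false

open scoped Classical

noncomputable section

namespace PRAR

variable {ι : Type} [Fintype ι] {F : Type} [Field F] [Fintype F]
variable {Y V : Type} [AddCommGroup Y] [Module F Y] [Fintype Y] [AddCommGroup V] [Module F V]
  [Fintype V]

theorem hf_const (e : Y) : MLin F (∅ : Finset ι) (fun _ : ι → Y => e) :=
  ⟨fun i hi => by simp at hi, fun i hi => by simp at hi, fun _ _ _ _ => rfl⟩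

/-- The map with `v` off `J` and a constant in slot `i0`. -/
theorem hf_fix {I : Finset ι} {T : (ι → Y) → V} (hT : MLin F I T) {i0 : ι} (h0 : i0 ∈ I)
    (v : ι → Y) {J : Finset ι} (hJ : J ⊆ I.erase i0) (e : Y) :
    MLin F J (fun y => T (Function.update (J.piecewise y v) i0 e)) := by
  have e2 : (I.erase i0) \ Jᶜ = J := by
    ext k
    simp only [Finset.mem_sdiff, Finset.mem_compl, not_not]
    exact ⟨fun h => h.2, fun h => ⟨hJ h, h⟩⟩
  have h1 := hT.subst h0 Jᶜ v (hf_const e) (Finset.disjoint_empty_right _)
  rw [e2, Finset.union_empty] at h1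
  have e1 : (fun y : ι → Y => T (Function.update (J.piecewise y v) i0 e)) =
      fun y => T (Function.update (Jᶜ.piecewise v y) i0 e) := by
    funext y
    rw [he_piecewise]
  rw [e1]
  exact h1

theorem hf_term {I : Finset ι} {T : (ι → Y) → V} (hT : MLin F I T) {i0 : ι} (h0 : i0 ∈ I)
    {v : ι → Y} {G : V →ₗ[F] Y} {ξ : Finset ι → (ι → Y) → Y} (h : Xi T i0 v G ξ)
    {J : Finset ι} (hJ : J ⊆ I.erase i0) (hB : ((I.erase i0) \ J).Nonempty) (W : V →ₗ[F] V) :
    PRle F I (fun y => W (T (Function.update (J.piecewise y v) i0 (ξ ((I.erase i0) \ J) y))))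
      (Module.finrank F (LinearMap.range G)) := by
  obtain ⟨p, hp⟩ := (LinearMap.range G).subtype.exists_leftInverse_of_injective
    (LinearMap.range G).ker_subtype
  let bs := Module.finBasis F (LinearMap.range G)
  have hexp : ∀ w ∈ LinearMap.range G,
      ∑ s, (bs.coord s (p w)) • ((bs s : LinearMap.range G) : Y) = w := by
    intro w hw
    have h1 : p w = ⟨w, hw⟩ := LinearMap.congr_fun hp ⟨w, hw⟩
    rw [h1]
    have h2 := congrArg (LinearMap.range G).subtype (bs.sum_repr ⟨w, hw⟩)
    rw [map_sum] at h2
    simp only [map_smul] at h2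
    exact h2
  refine ⟨fun s y => (bs.coord s (p (ξ ((I.erase i0) \ J) y))) •
    W (T (Function.update (J.piecewise y v) i0 (bs s : LinearMap.range G))), fun s => ?_,
    fun y => ?_⟩
  · refine ⟨insert i0 ((I.erase i0) \ J), ⟨i0, Finset.mem_insert_self _ _⟩, ?_,
      fun y => bs.coord s (p (ξ ((I.erase i0) \ J) y)),
      fun y => W (T (Function.update (J.piecewise y v) i0 (bs s : LinearMap.range G))), ?_, ?_,
      fun y => rfl⟩
    · intro k hk
      rcases Finset.mem_insert.1 hk with rfl | hk
      · exact h0
      · exact Finset.mem_of_mem_erase (Finset.mem_sdiff.1 hk).1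
    · exact (xi_mlin hT h0 h _ Finset.sdiff_subset).comp ((bs.coord s).comp p)
    · have e3 : I \ insert i0 ((I.erase i0) \ J) = J := by
        ext k
        have h4 := @hJ k
        simp only [Finset.mem_sdiff, Finset.mem_insert, Finset.mem_erase, not_or, not_and,
          not_not] at h4 ⊢
        constructor
        · rintro ⟨h5, h6, h7⟩
          exact h7 ⟨h6, h5⟩
        · intro h5
          exact ⟨(h4 h5).2, (h4 h5).1, fun _ => h5⟩
      rw [e3]
      exact (hf_fix hT h0 v hJ _).comp W
  · have h5 : ξ ((I.erase i0) \ J) y ∈ LinearMap.range G := by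
      rw [h.step _ hB y]
      exact neg_mem (LinearMap.mem_range_self _ _)
    have h6 : slotMap hT h0 (J.piecewise y v) (ξ ((I.erase i0) \ J) y) =
        ∑ s, (bs.coord s (p (ξ ((I.erase i0) \ J) y))) •
          slotMap hT h0 (J.piecewise y v) ((bs s : LinearMap.range G) : Y) := by
      conv_lhs => rw [← hexp _ h5]
      rw [map_sum]
      simp only [map_smul]
    have h7 : T (Function.update (J.piecewise y v) i0 (ξ ((I.erase i0) \ J) y)) =
        ∑ s, (bs.coord s (p (ξ ((I.erase i0) \ J) y))) •
          T (Function.update (J.piecewise y v) i0 ((bs s : LinearMap.range G) : Y)) := h6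
    show W (T (Function.update (J.piecewise y v) i0 (ξ ((I.erase i0) \ J) y))) =
      ∑ s, (bs.coord s (p (ξ ((I.erase i0) \ J) y))) •
        W (T (Function.update (J.piecewise y v) i0 ((bs s : LinearMap.range G) : Y)))
    rw [h7, map_sum]
    simp only [map_smul]

theorem HT_cost {I : Finset ι} {T : (ι → Y) → V} (hT : MLin F I T) {i0 : ι} (h0 : i0 ∈ I)
    {v : ι → Y} {G : V →ₗ[F] Y} {ξ : Finset ι → (ι → Y) → Y} (h : Xi T i0 v G ξ)
    (h1 : ∀ x, slotMap hT h0 v (G (slotMap hT h0 v x)) = slotMap hT h0 v x)
    (h2 : ∀ w, G (slotMap hT h0 v (G w)) = G w) :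
    PRle F I (T - HT T (I.erase i0) i0 v G ξ)
      (2 ^ Fintype.card ι * Module.finrank F (LinearMap.range (slotMap hT h0 v))) := by
  have hI : I.Nonempty := ⟨i0, h0⟩
  set A0 : Y →ₗ[F] V := slotMap hT h0 v with hA0
  have hA0a : ∀ x, A0 x = T (Function.update v i0 x) := fun x => rfl
  set r := Module.finrank F (LinearMap.range A0) with hr
  set A := I.erase i0 with hA
  have hrπ : Module.finrank F (LinearMap.range (G.comp A0)) ≤ r := by
    rw [LinearMap.range_comp]
    exact Submodule.finrank_map_le _ _
  have hrw : Module.finrank F (LinearMap.range (A0.comp G)) ≤ r :=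
    Submodule.finrank_mono (LinearMap.range_comp_le_range G A0)
  have hrG : Module.finrank F (LinearMap.range G) ≤ r := by
    refine le_trans (Submodule.finrank_mono ?_) hrπ
    rintro _ ⟨w, rfl⟩
    exact ⟨G w, h2 w⟩
  set Tπ : (ι → Y) → V := fun y => T (Function.update y i0 ((G.comp A0) (y i0))) with hTπ
  have hPπ : PRle F I Tπ r := (PRle_slot hT h0 (G.comp A0)).mono hI hrπ
  have hcard : 2 ^ A.card ≤ 2 ^ Fintype.card ι :=
    Nat.pow_le_pow_right (by norm_num) (Finset.card_le_univ _)
  rcases Finset.eq_empty_or_nonempty A with hAe | hAn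
  · have hHS : ∀ y, HS T A i0 v ξ y = 0 := by
      intro y
      unfold HS
      rw [hAe]
      simp
    have hT1 : ∀ y, (T - HT T A i0 v G ξ) y = Tπ y := by
      intro y
      show T y - (HS T A i0 v ξ y - T (Function.update v i0 (G (HS T A i0 v ξ y)))) = _
      rw [hHS, map_zero, hT.update_zero h0, sub_zero, sub_zero]
      have hI1 : ∀ i ∈ I, i = i0 := by
        intro i hi
        by_contra hne
        have : i ∈ A := Finset.mem_erase.2 ⟨hne, hi⟩
        rw [hAe] at this
        simp at this
      have e1 : T y = A0 (y i0) := by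
        rw [hA0a]
        refine hT.congr fun i hi => ?_
        rw [hI1 i hi]
        simp
      have e2 : Tπ y = A0 (G (A0 (y i0))) := by
        rw [hA0a (G (A0 (y i0)))]
        refine hT.congr fun i hi => ?_
        rw [hI1 i hi]
        simp
      rw [e1, e2, h1]
    refine (hPπ.of_eq hT1).mono hI ?_
    exact Nat.le_mul_of_pos_left _ (by positivity)
  · have hPT : MLin F I Tπ := hPπ.mlin
    have hP2 : PRle F I (fun y => (A0.comp G) (T y - Tπ y)) r :=
      (PRle_target hI (hT.sub' hPT) (A0.comp G)).mono hI hrw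
    set S := (A.powerset.erase ∅).erase A with hS
    have hP3 : PRle F I (fun y => ∑ J ∈ S, (A0.comp G - LinearMap.id : V →ₗ[F] V)
        (T (Function.update (J.piecewise y v) i0 (ξ (A \ J) y)))) (S.card * r) := by
      refine PRle.sum hI S fun J hJ => ?_
      rw [hS, Finset.mem_erase, Finset.mem_erase, Finset.mem_powerset] at hJ
      obtain ⟨hJA, hJ0, hJs⟩ := hJ
      refine (hf_term hT h0 h hJs ?_ _).mono hI hrG
      rw [Finset.sdiff_nonempty]
      exact fun h3 => hJA (Finset.Subset.antisymm hJs h3)
    have hAm : A ∈ A.powerset.erase ∅ :=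
      Finset.mem_erase.2 ⟨hAn.ne_empty, Finset.mem_powerset_self A⟩
    have hcS : S.card + 2 = 2 ^ A.card := by
      rw [hS, Finset.card_erase_of_mem hAm,
        Finset.card_erase_of_mem (Finset.mem_powerset.2 (Finset.empty_subset A)),
        Finset.card_powerset]
      have : 2 ^ 1 ≤ 2 ^ A.card := Nat.pow_le_pow_right (by norm_num) hAn.card_pos
      omega
    have hall := (hPπ.add hP2).add hP3
    have hfin : PRle F I (T - HT T A i0 v G ξ) (r + r + S.card * r) := by
      refine hall.of_eq fun y => ?_
      have e1 : T (Function.update (A.piecewise y v) i0 (ξ (A \ A) y)) = T y - Tπ y := by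
        rw [Finset.sdiff_self, h.empty]
        have e2 : ∀ w : Y, T (Function.update (A.piecewise y v) i0 w) =
            slotMap hT h0 y w := by
          intro w
          show _ = T (Function.update y i0 w)
          refine hT.congr fun i hi => ?_
          by_cases hii : i = i0
          · subst hii; simp
          · rw [Function.update_of_ne hii, Function.update_of_ne hii,
              Finset.piecewise_eq_of_mem _ _ _ (Finset.mem_erase.2 ⟨hii, hi⟩)]
        rw [e2, map_sub]
        show T (Function.update y i0 (y i0)) - T (Function.update y i0 _) = _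
        rw [Function.update_eq_self]
        rfl
      have e3 : HS T A i0 v ξ y = (T y - Tπ y) +
          ∑ J ∈ S, T (Function.update (J.piecewise y v) i0 (ξ (A \ J) y)) := by
        unfold HS
        rw [← Finset.add_sum_erase _ _ hAm, e1]
      have e4 : (T - HT T A i0 v G ξ) y = T y - (HS T A i0 v ξ y -
          (A0.comp G) (HS T A i0 v ξ y)) := rfl
      rw [e4, e3, map_add, map_sum]
      simp only [LinearMap.sub_apply, LinearMap.id_apply, Finset.sum_sub_distrib]
      abel
    refine hfin.mono hI ?_
    calc r + r + S.card * r = (S.card + 2) * r := by ring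
      _ = 2 ^ A.card * r := by rw [hcS]
      _ ≤ 2 ^ Fintype.card ι * r := Nat.mul_le_mul_right _ hcard

end PRAR
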