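import Pool.Agent.PRAR.H.B
import Pool.Agent.PRAR.H.C
import Pool.Agent.PRAR.H.D
import Pool.Agent.PRAR.H.F

/-! # Lemma H -/

set_option autoImplicit false
set_option linter.unusedSectionVars false

open scoped Classical

noncomputable section

namespace PRAR

section aux

variable {ι : Type} [Fintype ι] {F : Type} [Field F] [Fintype F]
variable {Y V : Type} [AddCommGroup Y] [Module F Y] [Fintype Y] [AddCommGroup V] [Module F V]
  [Fintype V]

/-- Expansion at the point with coordinates `v + t y` on `L`. -/
theorem hz_expand {I : Finset ι} {T : (ι → Y) → V} (hT : MLin F I T) (y v : ι → Y) (t : F)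
    (L : Finset ι) (hL : L ⊆ I) (w : ι → Y) :
    T (L.piecewise (v + t • y) w) =
      ∑ J ∈ L.powerset, t ^ J.card • T (J.piecewise y (L.piecewise v w)) := by
  induction L using Finset.induction_on generalizing w with
  | empty =>
    rw [Finset.powerset_empty, Finset.sum_singleton, Finset.card_empty, pow_zero, one_smul,
      Finset.piecewise_empty, Finset.piecewise_empty, Finset.piecewise_empty]
  | insert i L hi ih =>
    have hL' : L ⊆ I := (Finset.subset_insert i L).trans hL
    have hiI : i ∈ I := hL (Finset.mem_insert_self i L)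
    have hupd : ∀ (f : ι → Y) (u : Y), Function.update (L.piecewise f w) i u =
        L.piecewise f (Function.update w i u) := by
      intro f u
      ext j
      by_cases hj : j = i
      · subst hj
        rw [Function.update_self, Finset.piecewise_eq_of_notMem _ _ _ hi, Function.update_self]
      · rw [Function.update_of_ne hj]
        by_cases hjL : j ∈ L
        · rw [Finset.piecewise_eq_of_mem _ _ _ hjL, Finset.piecewise_eq_of_mem _ _ _ hjL]
        · rw [Finset.piecewise_eq_of_notMem _ _ _ hjL, Finset.piecewise_eq_of_notMem _ _ _ hjL,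
            Function.update_of_ne hj]
    rw [Finset.piecewise_insert, Pi.add_apply, Pi.smul_apply, hT.add i hiI, hT.smul i hiI,
      hupd, hupd, ih hL', ih hL', Finset.sum_powerset_insert hi, Finset.smul_sum]
    congr 1
    · refine Finset.sum_congr rfl fun J _ => ?_
      rw [← hupd v (v i), ← Finset.piecewise_insert]
    · refine Finset.sum_congr rfl fun J hJ => ?_
      rw [Finset.mem_powerset] at hJ
      have hiJ : i ∉ J := fun h => hi (hJ h)
      rw [Finset.card_insert_of_notMem hiJ, smul_smul, pow_succ, mul_comm t]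
      congr 2
      ext j
      by_cases hj : j = i
      · subst hj
        rw [Finset.piecewise_eq_of_notMem _ _ _ hiJ, Finset.piecewise_eq_of_notMem _ _ _ hi,
          Function.update_self, Finset.piecewise_eq_of_mem _ _ _ (Finset.mem_insert_self _ _)]
      · by_cases hjJ : j ∈ J
        · rw [Finset.piecewise_eq_of_mem _ _ _ hjJ,
            Finset.piecewise_eq_of_mem _ _ _ (Finset.mem_insert_of_mem hjJ)]
        · have hjJ' : j ∉ insert i J := by
            rw [Finset.mem_insert]; push Not; exact ⟨hj, hjJ⟩
          rw [Finset.piecewise_eq_of_notMem _ _ _ hjJ, Finset.piecewise_eq_of_notMem _ _ _ hjJ']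
          by_cases hjL : j ∈ L
          · rw [Finset.piecewise_eq_of_mem _ _ _ hjL,
              Finset.piecewise_eq_of_mem _ _ _ (Finset.mem_insert_of_mem hjL)]
          · have hjL' : j ∉ insert i L := by
              rw [Finset.mem_insert]; push Not; exact ⟨hj, hjL⟩
            rw [Finset.piecewise_eq_of_notMem _ _ _ hjL, Finset.piecewise_eq_of_notMem _ _ _ hjL',
              Function.update_of_ne hj]

/-- The variety contains the points with coordinates in the span of `v` and `y`. -/
theorem hz_zer (P : Fam ι F Y) {y v : ι → Y} (h : ∀ J : Finset ι, J.piecewise y v ∈ P.zer)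
    (t : F) (L : Finset ι) : L.piecewise (v + t • y) v ∈ P.zer := by
  intro k
  have h1 : P.p k (L.piecewise (v + t • y) v) = P.p k ((L ∩ P.ty k).piecewise (v + t • y) v) := by
    refine (P.lin k).congr fun i hi => ?_
    by_cases hiL : i ∈ L
    · rw [Finset.piecewise_eq_of_mem _ _ _ hiL,
        Finset.piecewise_eq_of_mem _ _ _ (Finset.mem_inter.2 ⟨hiL, hi⟩)]
    · rw [Finset.piecewise_eq_of_notMem _ _ _ hiL,
        Finset.piecewise_eq_of_notMem _ _ _ (fun h => hiL (Finset.mem_inter.1 h).1)]
  rw [h1, hz_expand (P.lin k) y v t _ Finset.inter_subset_right]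
  refine Finset.sum_eq_zero fun J _ => ?_
  rw [Finset.piecewise_same, h J k, smul_zero]

theorem hz_arith {n k q r x c : ℕ} (hk : k ≤ n) (hq : 2 + n + 2 ^ (n + 1) * n ≤ q) (hr : r ≤ c)
    (h : (q - 1) * x ≤ k * (2 ^ k * r + x)) : x ≤ c / 2 := by
  have h1 : 2 ^ (k + 1) * k ≤ 2 ^ (n + 1) * n :=
    Nat.mul_le_mul (Nat.pow_le_pow_right (by norm_num) (by omega)) hk
  have h2 : 1 + k + 2 ^ (k + 1) * k ≤ q - 1 := by omega
  have h3 : (1 + k + 2 ^ (k + 1) * k) * x ≤ k * (2 ^ k * r + x) :=
    (Nat.mul_le_mul_right x h2).trans h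
  have h4 : x + 2 ^ (k + 1) * k * x ≤ k * (2 ^ k * r) := by nlinarith
  rcases Nat.eq_zero_or_pos k with hk0 | hk0
  · subst hk0
    have : x = 0 := by omega
    omega
  · have h5 : (2 ^ k * k) * (2 * x) ≤ (2 ^ k * k) * r := by
      rw [pow_succ] at h4
      nlinarith
    have h6 : 2 * x ≤ r := Nat.le_of_mul_le_mul_left h5 (by positivity)
    omega

end aux

theorem lemH (ι : Type) [Fintype ι] : StmtH ι := by
  intro F _ _ hq Y V _ _ _ _ _ _ I i0 h0 T hT P c hP hr
  set A := I.erase i0 with hA
  have hne : I.Nonempty := ⟨i0, h0⟩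
  have hzero : (0 : ι → Y) ∈ P.zer := by
    intro k
    obtain ⟨i, hi⟩ := P.ne k
    exact (P.lin k).eq_zero_of_coord hi rfl
  obtain ⟨v, hv, hmax⟩ := Finset.exists_max_image (Finset.univ.filter (fun y : ι → Y => y ∈ P.zer))
    (fun y => Module.finrank F (LinearMap.range (slotMap hT h0 y)))
    ⟨0, Finset.mem_filter.2 ⟨Finset.mem_univ _, hzero⟩⟩
  have hvz : v ∈ P.zer := (Finset.mem_filter.1 hv).2
  have hmax' : ∀ y ∈ P.zer, Module.finrank F (LinearMap.range (slotMap hT h0 y)) ≤
      Module.finrank F (LinearMap.range (slotMap hT h0 v)) := fun y hy =>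
    hmax y (Finset.mem_filter.2 ⟨Finset.mem_univ _, hy⟩)
  set r := Module.finrank F (LinearMap.range (slotMap hT h0 v)) with hrdef
  have hrc : r ≤ c := hr v hvz
  obtain ⟨G, hG1, hG2, -⟩ := exists_ginv (slotMap hT h0 v)
  obtain ⟨ξ, hξ⟩ := exists_xi T i0 v G
  refine ⟨P.pull v, HT T A i0 v G ξ, HT_mlin hT h0 hξ, Fam.pull_on hP v, P.pull_card v, ?_, ?_⟩
  · exact (HT_cost hT h0 hξ hG1 hG2).mono hne (Nat.mul_le_mul_left _ hrc)
  intro y hy
  have hyJ : ∀ J : Finset ι, J.piecewise y v ∈ P.zer := by
    intro J
    have := (P.pull_zer hvz y).1 hy Jᶜ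
    rwa [Finset.piecewise_compl] at this
  set M : Finset ι → Y →ₗ[F] V := fun J => slotMap hT h0 (J.piecewise y v) with hM
  have hMT : ∀ J x, M J x = T (Function.update (J.piecewise y v) i0 x) := fun J x => rfl
  have hM0 : M ∅ = slotMap hT h0 v := by
    ext x
    rw [hMT, Finset.piecewise_empty]
    rfl
  have hover : ∀ (J : Finset ι) (x w : Y),
      T (Function.update (J.piecewise (Function.update y i0 x) v) i0 w) = M J w := by
    intro J x w
    rw [hMT]
    congr 1
    ext j
    by_cases hj : j = i0
    · subst hj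
      rw [Function.update_self, Function.update_self]
    · rw [Function.update_of_ne hj, Function.update_of_ne hj]
      by_cases hjJ : j ∈ J
      · rw [Finset.piecewise_eq_of_mem _ _ _ hjJ, Finset.piecewise_eq_of_mem _ _ _ hjJ,
          Function.update_of_ne hj]
      · rw [Finset.piecewise_eq_of_notMem _ _ _ hjJ, Finset.piecewise_eq_of_notMem _ _ _ hjJ]
  have hstep : ∀ B : Finset ι, B.Nonempty → ∀ x, ξ B (Function.update y i0 x) =
      - G (∑ J ∈ B.powerset.erase ∅, M J (ξ (B \ J) (Function.update y i0 x))) := by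
    intro B hB x
    rw [hξ.step B hB]
    congr 2
    exact Finset.sum_congr rfl fun J _ => hover J x _
  have hempty : ∀ x, ξ ∅ (Function.update y i0 x) = x - G (M ∅ x) := by
    intro x
    rw [hξ.empty, Function.update_self, hM0]
    rfl
  have hlin : ∀ B : Finset ι, ∃ L : Y →ₗ[F] Y, ∀ x, L x = ξ B (Function.update y i0 x) := by
    intro B
    induction B using Finset.strongInduction with
    | H B ih =>
      rcases B.eq_empty_or_nonempty with hB | hB
      · subst hB
        exact ⟨LinearMap.id - G.comp (M ∅), fun x => (hempty x).symm⟩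
      · have h1 : ∀ J : Finset ι, ∃ L : Y →ₗ[F] Y, J ∈ B.powerset.erase ∅ →
            ∀ x, L x = ξ (B \ J) (Function.update y i0 x) := by
          intro J
          by_cases hJ : J ∈ B.powerset.erase ∅
          · rw [Finset.mem_erase, Finset.mem_powerset] at hJ
            have hss : B \ J ⊂ B := Finset.sdiff_ssubset hJ.2 (Finset.nonempty_iff_ne_empty.2 hJ.1)
            obtain ⟨L, hL⟩ := ih _ hss
            exact ⟨L, fun _ => hL⟩
          · exact ⟨0, fun h => absurd h hJ⟩
        choose L hL using h1
        refine ⟨- (G.comp (∑ J ∈ B.powerset.erase ∅, (M J).comp (L J))), fun x => ?_⟩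
        rw [hstep B hB x, LinearMap.neg_apply, LinearMap.comp_apply, LinearMap.sum_apply]
        congr 2
        refine Finset.sum_congr rfl fun J hJ => ?_
        rw [LinearMap.comp_apply, hL J hJ x]
  choose ξ' hξ' using hlin
  have hfin := NE_zero A M G (fun x => by rw [hM0]; exact hG1 x) (fun w => by rw [hM0]; exact hG2 w)
    ξ' (fun x => by rw [hξ']; exact hempty x)
    (fun B hB x => by
      rw [hξ', hstep B hB x]
      congr 2
      exact Finset.sum_congr rfl fun J _ => by rw [hξ'])
    (slotMap (HT_mlin hT h0 hξ) h0 y)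
    (fun x => by
      have h1 : HS T A i0 v ξ (Function.update y i0 x) =
          ∑ J ∈ A.powerset.erase ∅, M J (ξ' (A \ J) x) := by
        unfold HS
        refine Finset.sum_congr rfl fun J _ => ?_
        rw [hover, hξ']
      rw [← h1, hM0]
      rfl)
  rw [hM0] at hfin
  have hnz : ∀ t : F, t ≠ 0 →
      Module.finrank F (LinearMap.range (NE A M t)) ≤ 2 ^ A.card * r := by
    intro t ht
    refine NE_rank A M t ht r ?_
    intro L hL
    have hi0L : i0 ∉ L := fun h => Finset.notMem_erase i0 I (hL h)
    have h1 : ∑ J ∈ L.powerset, t ^ J.card • M J = slotMap hT h0 (L.piecewise (v + t • y) v) := by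
      ext x
      have hLI : L ⊆ I := hL.trans (Finset.erase_subset _ _)
      have h2 : Function.update (L.piecewise (v + t • y) v) i0 x =
          L.piecewise (v + t • y) (Function.update v i0 x) := by
        ext j
        by_cases hj : j = i0
        · subst hj
          rw [Function.update_self, Finset.piecewise_eq_of_notMem _ _ _ hi0L, Function.update_self]
        · rw [Function.update_of_ne hj]
          by_cases hjL : j ∈ L
          · rw [Finset.piecewise_eq_of_mem _ _ _ hjL, Finset.piecewise_eq_of_mem _ _ _ hjL]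
          · rw [Finset.piecewise_eq_of_notMem _ _ _ hjL, Finset.piecewise_eq_of_notMem _ _ _ hjL,
              Function.update_of_ne hj]
      have h3 : slotMap hT h0 (L.piecewise (v + t • y) v) x =
          T (L.piecewise (v + t • y) (Function.update v i0 x)) := by rw [← h2]; rfl
      rw [h3, hz_expand hT y v t L hLI, LinearMap.sum_apply]
      refine Finset.sum_congr rfl fun J hJ => ?_
      rw [Finset.mem_powerset] at hJ
      rw [LinearMap.smul_apply, hMT]
      congr 2
      have hi0J : i0 ∉ J := fun h => hi0L (hJ h)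
      ext j
      by_cases hj : j = i0
      · subst hj
        rw [Function.update_self, Finset.piecewise_eq_of_notMem _ _ _ hi0J,
          Finset.piecewise_eq_of_notMem _ _ _ hi0L, Function.update_self]
      · rw [Function.update_of_ne hj]
        by_cases hjJ : j ∈ J
        · rw [Finset.piecewise_eq_of_mem _ _ _ hjJ, Finset.piecewise_eq_of_mem _ _ _ hjJ]
        · rw [Finset.piecewise_eq_of_notMem _ _ _ hjJ, Finset.piecewise_eq_of_notMem _ _ _ hjJ]
          by_cases hjL : j ∈ L
          · rw [Finset.piecewise_eq_of_mem _ _ _ hjL]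
          · rw [Finset.piecewise_eq_of_notMem _ _ _ hjL, Function.update_of_ne hj]
    rw [h1]
    exact hmax' _ (hz_zer P hyJ t L)
  obtain ⟨Lp, hLp0, hLp⟩ := NE_poly A M
  have hpoly := rank_poly A.card Lp (2 ^ A.card * r) (fun t ht => by
    rw [← hLp t]
    exact hnz t ht)
  rw [hLp0] at hpoly
  set R := Module.finrank F (LinearMap.range (NE A M 0)) with hR
  set rk := Module.finrank F (LinearMap.range (slotMap (HT_mlin hT h0 hξ) h0 y)) with hrk
  have hfin' : 2 ^ A.card * r + rk ≤ R := hfin
  clear hfin
  have hx : rk ≤ R - 2 ^ A.card * r := by omega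
  have hRx : R = 2 ^ A.card * r + (R - 2 ^ A.card * r) := by omega
  refine hx.trans (hz_arith (Finset.card_le_univ A) hq hrc ?_)
  rw [← hRx]
  exact hpoly

end PRAR
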