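import Pool.Agent.PRAR.Ba

/-! # Section 8: ranks of polynomial families of matrices -/

set_option autoImplicit false
set_option linter.unusedSectionVars false

open scoped Classical

noncomputable section

namespace PRAR

theorem ha_basis {F : Type} [Field F] {R : ℕ} (M : Matrix (Fin R) (Fin R) F) (ρ : ℕ)
    (h : M.rank ≤ ρ) : ∃ (b : Module.Basis (Fin R) F (Fin R → F)) (S : Finset (Fin R)),
      R - ρ ≤ S.card ∧ ∀ j ∈ S, M.mulVec (b j) = 0 := by
  obtain ⟨L, hL⟩ := (LinearMap.ker M.mulVecLin).exists_isCompl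
  let bK := Module.finBasis F (LinearMap.ker M.mulVecLin)
  let bL := Module.finBasis F L
  let b := (bK.prod bL).map (Submodule.prodEquivOfIsCompl _ L hL)
  have hcard : Fintype.card (Fin (Module.finrank F (LinearMap.ker M.mulVecLin)) ⊕
      Fin (Module.finrank F L)) = R := by
    rw [← Module.finrank_eq_card_basis b, Module.finrank_fin_fun]
  let e := Fintype.equivFinOfCardEq hcard
  have hinj : Function.Injective (fun i : Fin (Module.finrank F (LinearMap.ker M.mulVecLin)) =>
      e (Sum.inl i)) := e.injective.comp Sum.inl_injective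
  refine ⟨b.reindex e, Finset.univ.map ⟨_, hinj⟩, ?_, ?_⟩
  · rw [Finset.card_map, Finset.card_univ, Fintype.card_fin]
    have h1 := LinearMap.finrank_range_add_finrank_ker M.mulVecLin
    rw [Module.finrank_fin_fun] at h1
    have h2 : Module.finrank F (LinearMap.range M.mulVecLin) ≤ ρ := h
    omega
  · intro j hj
    rw [Finset.mem_map] at hj
    obtain ⟨i, -, rfl⟩ := hj
    have h3 : (b.reindex e) (e (Sum.inl i)) = (bK i : Fin R → F) := by
      rw [Module.Basis.reindex_apply, Equiv.symm_apply_apply]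
      show (Submodule.prodEquivOfIsCompl _ L hL) ((bK.prod bL) (Sum.inl i)) = _
      rw [Submodule.coe_prodEquivOfIsCompl']
      simp
    show M.mulVec ((b.reindex e) (e (Sum.inl i))) = 0
    rw [h3]
    have h4 := (bK i).2
    rw [LinearMap.mem_ker] at h4
    exact h4

open Polynomial in
theorem det_dvd {F : Type} [Field F] {R : ℕ} (B : Matrix (Fin R) (Fin R) F[X]) (t : F) (ρ : ℕ)
    (h : (B.map (Polynomial.eval t)).rank ≤ ρ) : (X - C t) ^ (R - ρ) ∣ B.det := by
  obtain ⟨b, S, hS, hb⟩ := ha_basis _ ρ h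
  have hunit : IsUnit ((Pi.basisFun F (Fin R)).toMatrix b).det :=
    (Pi.basisFun F (Fin R)).isUnit_det b
  set Q := (Pi.basisFun F (Fin R)).toMatrix b with hQ
  have hentry : ∀ i, ∀ j ∈ S, (X - C t) ∣ (B * (C : F →+* F[X]).mapMatrix Q) i j := by
    intro i j hj
    rw [dvd_iff_isRoot, IsRoot.def, Matrix.mul_apply, eval_finsetSum]
    have h1 := congrFun (hb j hj) i
    rw [Pi.zero_apply] at h1
    rw [← h1]
    refine Finset.sum_congr rfl fun x _ => ?_
    rw [eval_mul, RingHom.mapMatrix_apply, Matrix.map_apply, eval_C]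
    rfl
  have hex : ∀ i j, ∃ d : F[X], (B * (C : F →+* F[X]).mapMatrix Q) i j =
      (if j ∈ S then X - C t else 1) * d := by
    intro i j
    by_cases hj : j ∈ S
    · obtain ⟨d, hd⟩ := hentry i j hj
      exact ⟨d, by rw [if_pos hj]; exact hd⟩
    · exact ⟨(B * (C : F →+* F[X]).mapMatrix Q) i j, by rw [if_neg hj, one_mul]⟩
  choose D hD using hex
  have h2 : B * (C : F →+* F[X]).mapMatrix Q =
      Matrix.of fun i j => (if j ∈ S then X - C t else 1) * Matrix.of D i j := by
    ext1 i j
    rw [Matrix.of_apply, Matrix.of_apply]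
    exact hD i j
  have h3 : B.det * C Q.det = (X - C t) ^ S.card * (Matrix.of D).det := by
    rw [RingHom.map_det, ← Matrix.det_mul, h2, Matrix.det_mul_row]
    congr 1
    rw [Finset.prod_ite_mem, Finset.univ_inter, Finset.prod_const]
  have hu : IsUnit (C Q.det : F[X]) := hunit.map C
  have h4 : (X - C t) ^ S.card ∣ B.det * C Q.det := ⟨_, h3⟩
  exact (pow_dvd_pow _ hS).trans (hu.dvd_mul_right.1 h4)

end PRAR
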