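import Pool.Agent.PRAR.H.A

/-! # Section 8: rank at zero from ranks at nonzero points -/

set_option autoImplicit false
set_option linter.unusedSectionVars false

open scoped Classical

noncomputable section

namespace PRAR

open Polynomial in
theorem hb_natDegree_det {F : Type} [Field F] {R k : ℕ} (B : Matrix (Fin R) (Fin R) F[X])
    (h : ∀ a b, (B a b).natDegree ≤ k) : B.det.natDegree ≤ k * R := by
  rw [Matrix.det_apply]
  refine Polynomial.natDegree_sum_le_of_forall_le _ _ (fun σ _ => ?_)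
  refine (Polynomial.natDegree_smul_le _ _).trans ?_
  refine (Polynomial.natDegree_prod_le _ _).trans ?_
  refine (Finset.sum_le_sum (fun a _ => h (σ a) a)).trans ?_
  simp [mul_comm]

open Polynomial in
/-- The polynomial matrix with coefficient matrices `c d`. -/
def hb_B {F : Type} [Field F] {R : ℕ} (k : ℕ) (c : ℕ → Matrix (Fin R) (Fin R) F) :
    Matrix (Fin R) (Fin R) F[X] :=
  fun a b => ∑ d ∈ Finset.range (k + 1), C (c d a b) * X ^ d

open Polynomial in
theorem hb_B_eval {F : Type} [Field F] {R : ℕ} (k : ℕ) (c : ℕ → Matrix (Fin R) (Fin R) F)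
    (t : F) : (hb_B k c).map (Polynomial.eval t) = ∑ d ∈ Finset.range (k + 1), t ^ d • c d := by
  ext a b
  rw [Matrix.map_apply, hb_B, Polynomial.eval_finsetSum, Matrix.sum_apply]
  refine Finset.sum_congr rfl (fun d _ => ?_)
  rw [Polynomial.eval_mul, Polynomial.eval_C, Polynomial.eval_pow, Polynomial.eval_X,
    Matrix.smul_apply, smul_eq_mul, mul_comm]

open Polynomial in
theorem hb_prod_natDegree {F : Type} [Field F] (s : Finset F) (n : ℕ) :
    (∏ t ∈ s, (X - C t) ^ n).natDegree = s.card * n := by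
  rw [Polynomial.natDegree_prod_of_monic]
  · simp
  · intro t _
    exact (Polynomial.monic_X_sub_C t).pow _

open Polynomial in
theorem hb_mat {F : Type} [Field F] [Fintype F] {R : ℕ} (k : ℕ)
    (c : ℕ → Matrix (Fin R) (Fin R) F) (ρ : ℕ) (h0 : c 0 = 1)
    (h : ∀ t : F, t ≠ 0 → (∑ d ∈ Finset.range (k + 1), t ^ d • c d).rank ≤ ρ) :
    (Fintype.card F - 1) * (R - ρ) ≤ k * R := by
  have h1 : Polynomial.eval 0 (hb_B k c).det = 1 := by
    have h2 : Polynomial.eval 0 (hb_B k c).det = ((hb_B k c).map (Polynomial.eval 0)).det := by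
      have := RingHom.map_det (Polynomial.evalRingHom (0 : F)) (hb_B k c)
      rw [Polynomial.coe_evalRingHom] at this
      rw [this]
      rfl
    rw [h2, hb_B_eval]
    have h3 : (∑ d ∈ Finset.range (k + 1), (0 : F) ^ d • c d) = c 0 := by
      rw [Finset.sum_eq_single 0]
      · simp
      · intro d _ hd
        simp [zero_pow hd]
      · intro hn
        exact absurd (Finset.mem_range.2 (Nat.succ_pos k)) hn
    rw [h3, h0, Matrix.det_one]
  have hdet : (hb_B k c).det ≠ 0 := by
    intro h0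
    rw [h0] at h1
    simp at h1
  have hdvd : (∏ t ∈ (Finset.univ.erase (0 : F)), (X - C t) ^ (R - ρ)) ∣ (hb_B k c).det := by
    refine Finset.prod_dvd_of_coprime ?_ ?_
    · intro s _ t _ hst
      exact IsCoprime.pow (Polynomial.pairwise_coprime_X_sub_C (Function.injective_id) hst)
    · intro t ht
      refine det_dvd (hb_B k c) t ρ ?_
      rw [hb_B_eval]
      exact h t (Finset.ne_of_mem_erase ht)
  have hdeg := Polynomial.natDegree_le_of_dvd hdvd hdet
  rw [hb_prod_natDegree, Finset.card_erase_of_mem (Finset.mem_univ _), Finset.card_univ] at hdeg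
  refine hdeg.trans (hb_natDegree_det _ (fun a b => ?_))
  refine Polynomial.natDegree_sum_le_of_forall_le _ _ (fun d hd => ?_)
  refine (Polynomial.natDegree_C_mul_X_pow_le _ _).trans ?_
  have := Finset.mem_range.1 hd
  omega

theorem hb_frame {F : Type} [Field F] {X W : Type} [AddCommGroup X] [Module F X]
    [AddCommGroup W] [Module F W] [FiniteDimensional F W] (T : X →ₗ[F] W) {R : ℕ}
    (hR : Module.finrank F (LinearMap.range T) = R) :
    ∃ (i : (Fin R → F) →ₗ[F] X) (p : W →ₗ[F] (Fin R → F)), p ∘ₗ T ∘ₗ i = LinearMap.id := by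
  let b : Module.Basis (Fin R) F (LinearMap.range T) := Module.finBasisOfFinrankEq F _ hR
  have hx : ∀ a : Fin R, ∃ x : X, T x = (b a : W) := fun a => (b a).2
  choose x hx using hx
  obtain ⟨g, hg⟩ := LinearMap.exists_leftInverse_of_injective (LinearMap.range T).subtype
    (by simp)
  refine ⟨(Pi.basisFun F (Fin R)).constr F x, b.equivFun.toLinearMap ∘ₗ g, ?_⟩
  refine (Pi.basisFun F (Fin R)).ext (fun a => ?_)
  have h1 : g (T (x a)) = b a := by
    rw [hx a]
    exact LinearMap.congr_fun hg (b a)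
  rw [LinearMap.comp_apply, LinearMap.comp_apply, LinearMap.comp_apply, Module.Basis.constr_basis,
    h1]
  rw [LinearEquiv.coe_coe, LinearMap.id_apply, Pi.basisFun_apply]
  ext c
  rw [Module.Basis.equivFun_self]
  simp [Pi.single_apply, eq_comm]

theorem hb_rank_le {F : Type} [Field F] {X W : Type} [AddCommGroup X] [Module F X]
    [AddCommGroup W] [Module F W] [FiniteDimensional F W] {R : ℕ} (T : X →ₗ[F] W)
    (i : (Fin R → F) →ₗ[F] X) (p : W →ₗ[F] (Fin R → F)) :
    (LinearMap.toMatrix' (p ∘ₗ T ∘ₗ i)).rank ≤ Module.finrank F (LinearMap.range T) := by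
  rw [Matrix.rank, ← Matrix.toLin'_apply', Matrix.toLin'_toMatrix', LinearMap.range_comp]
  refine (Submodule.finrank_map_le _ _).trans ?_
  exact Submodule.finrank_mono (LinearMap.range_comp_le_range _ _)

theorem rank_poly {F : Type} [Field F] [Fintype F] {X W : Type} [AddCommGroup X] [Module F X]
    [Fintype X] [AddCommGroup W] [Module F W] [Fintype W] (k : ℕ) (L : ℕ → X →ₗ[F] W) (ρ : ℕ)
    (h : ∀ t : F, t ≠ 0 →
      Module.finrank F (LinearMap.range (∑ d ∈ Finset.range (k + 1), t ^ d • L d)) ≤ ρ) :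
    (Fintype.card F - 1) * (Module.finrank F (LinearMap.range (L 0)) - ρ) ≤
      k * Module.finrank F (LinearMap.range (L 0)) := by
  have : FiniteDimensional F W := Module.Finite.of_finite
  obtain ⟨i, p, hip⟩ := hb_frame (L 0) rfl
  refine hb_mat k (fun d => LinearMap.toMatrix' (p ∘ₗ (L d) ∘ₗ i)) ρ ?_ ?_
  · show LinearMap.toMatrix' (p ∘ₗ (L 0) ∘ₗ i) = 1
    rw [hip, LinearMap.toMatrix'_id]
  · intro t ht
    have h1 : (∑ d ∈ Finset.range (k + 1), t ^ d • LinearMap.toMatrix' (p ∘ₗ (L d) ∘ₗ i)) =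
        LinearMap.toMatrix' (p ∘ₗ (∑ d ∈ Finset.range (k + 1), t ^ d • L d) ∘ₗ i) := by
      have h2 : (p ∘ₗ (∑ d ∈ Finset.range (k + 1), t ^ d • L d) ∘ₗ i) =
          ∑ d ∈ Finset.range (k + 1), t ^ d • (p ∘ₗ (L d) ∘ₗ i) := by
        refine LinearMap.ext (fun v => ?_)
        simp only [LinearMap.comp_apply, LinearMap.sum_apply, LinearMap.smul_apply, map_sum,
          map_smul]
      rw [h2, map_sum]
      refine Finset.sum_congr rfl (fun d _ => ?_)
      rw [map_smul]
    show (∑ d ∈ Finset.range (k + 1), t ^ d • LinearMap.toMatrix' (p ∘ₗ (L d) ∘ₗ i)).rank ≤ ρ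
    rw [h1]
    exact (hb_rank_le _ i p).trans (h t ht)

end PRAR
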