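import Pool.Agent.PRAR.Ba

/-! # Section 8: definitions -/

set_option autoImplicit false
set_option linter.unusedSectionVars false

open scoped Classical

noncomputable section

namespace PRAR

variable {ι : Type} [Fintype ι] {F : Type} [Field F] [Fintype F]
variable {Y V : Type} [AddCommGroup Y] [Module F Y] [Fintype Y] [AddCommGroup V] [Module F V]
  [Fintype V]

/-- The block map `N(ε)`. -/
def NE (A : Finset ι) (M : Finset ι → Y →ₗ[F] V) (ε : F) :
    ({L : Finset ι // L ⊆ A} → Y) →ₗ[F] ({L : Finset ι // L ⊆ A} → V) :=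
  LinearMap.pi fun L => ∑ J1 : {L : Finset ι // L ⊆ A}, ∑ J2 : {L : Finset ι // L ⊆ A},
    if J1.1 ∪ J2.1 = L.1 then ε ^ (J1.1 ∩ J2.1).card • ((M J1.1).comp (LinearMap.proj J2))
    else 0

/-- The neutralising recursion of section 8. -/
structure Xi (T : (ι → Y) → V) (i0 : ι) (v : ι → Y) (G : V →ₗ[F] Y)
    (ξ : Finset ι → (ι → Y) → Y) : Prop where
  empty : ∀ y, ξ ∅ y = y i0 - G (T (Function.update v i0 (y i0)))
  step : ∀ B : Finset ι, B.Nonempty → ∀ y, ξ B y =
    - G (∑ J ∈ B.powerset.erase ∅, T (Function.update (J.piecewise y v) i0 (ξ (B \ J) y)))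

/-- The sum in the definition of the corrected map. -/
def HS (T : (ι → Y) → V) (A : Finset ι) (i0 : ι) (v : ι → Y) (ξ : Finset ι → (ι → Y) → Y) :
    (ι → Y) → V :=
  fun y => ∑ J ∈ A.powerset.erase ∅, T (Function.update (J.piecewise y v) i0 (ξ (A \ J) y))

/-- The corrected map `M' = (1 - ϖ) Σ`, `ϖ w = T (v with G w in slot i0)`. -/
def HT (T : (ι → Y) → V) (A : Finset ι) (i0 : ι) (v : ι → Y) (G : V →ₗ[F] Y)
    (ξ : Finset ι → (ι → Y) → Y) : (ι → Y) → V :=
  fun y => HS T A i0 v ξ y - T (Function.update v i0 (G (HS T A i0 v ξ y)))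

end PRAR
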