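import Pool.Agent.PRAR.H.Def

/-! # Section 8: the recursion -/

set_option autoImplicit false
set_option linter.unusedSectionVars false

open scoped Classical

noncomputable section

namespace PRAR

variable {ι : Type} [Fintype ι] {F : Type} [Field F] [Fintype F]
variable {Y V : Type} [AddCommGroup Y] [Module F Y] [Fintype Y] [AddCommGroup V] [Module F V]
  [Fintype V]

theorem he_sdiff_ssubset {B J : Finset ι} (hJ : J ∈ B.powerset.erase ∅) : B \ J ⊂ B := by
  rw [Finset.mem_erase, Finset.mem_powerset] at hJ
  exact Finset.sdiff_ssubset hJ.2 (Finset.nonempty_iff_ne_empty.2 hJ.1)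

/-- One step of the recursion. -/
def he_step (T : (ι → Y) → V) (i0 : ι) (v : ι → Y) (G : V →ₗ[F] Y) (B : Finset ι)
    (rec : ∀ t, t ⊂ B → (ι → Y) → Y) : (ι → Y) → Y := fun y =>
  if B = ∅ then y i0 - G (T (Function.update v i0 (y i0)))
  else - G (∑ J ∈ (B.powerset.erase ∅).attach,
    T (Function.update (J.1.piecewise y v) i0 (rec (B \ J.1) (he_sdiff_ssubset J.2) y)))

theorem exists_xi (T : (ι → Y) → V) (i0 : ι) (v : ι → Y) (G : V →ₗ[F] Y) :
    ∃ ξ, Xi T i0 v G ξ := by
  refine ⟨Finset.strongInduction (he_step T i0 v G), ?_, ?_⟩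
  · intro y
    rw [Finset.strongInduction_eq]
    unfold he_step
    rw [if_pos rfl]
  · intro B hB y
    rw [Finset.strongInduction_eq]
    unfold he_step
    rw [if_neg hB.ne_empty]
    congr 2
    exact Finset.sum_attach (B.powerset.erase ∅) (fun J => T (Function.update
      (J.piecewise y v) i0 (Finset.strongInduction (he_step T i0 v G) (B \ J) y)))

theorem he_piecewise (J : Finset ι) (y v : ι → Y) :
    J.piecewise y v = Jᶜ.piecewise v y := by
  funext k
  by_cases hk : k ∈ J
  · simp [hk]
  · simp [hk]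

/-- One summand of the recursion. -/
theorem he_term {I : Finset ι} {T : (ι → Y) → V} (hT : MLin F I T) {i0 : ι} (h0 : i0 ∈ I)
    (v : ι → Y) {B J : Finset ι} (hB : B ⊆ I.erase i0) (hJ : J ⊆ B) {g : (ι → Y) → Y}
    (hg : MLin F (insert i0 (B \ J)) g) :
    MLin F (insert i0 B) (fun y => T (Function.update (J.piecewise y v) i0 (g y))) := by
  have e1 : (fun y : ι → Y => T (Function.update (J.piecewise y v) i0 (g y))) =
      fun y => T (Function.update (Jᶜ.piecewise v y) i0 (g y)) := by
    funext y
    rw [he_piecewise]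
  have e2 : (I.erase i0) \ Jᶜ = J := by
    ext k
    simp only [Finset.mem_sdiff, Finset.mem_compl, not_not]
    exact ⟨fun h => h.2, fun h => ⟨hB (hJ h), h⟩⟩
  have hd : Disjoint ((I.erase i0) \ Jᶜ) (insert i0 (B \ J)) := by
    rw [e2, Finset.disjoint_left]
    intro k hk hk2
    rcases Finset.mem_insert.1 hk2 with h | h
    · exact Finset.ne_of_mem_erase (hB (hJ hk)) h
    · exact (Finset.mem_sdiff.1 h).2 hk
  have h1 := hT.subst h0 Jᶜ v hg hd
  have e3 : ((I.erase i0) \ Jᶜ) ∪ insert i0 (B \ J) = insert i0 B := by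
    rw [e2]
    ext k
    simp only [Finset.mem_union, Finset.mem_insert, Finset.mem_sdiff]
    constructor
    · rintro (h | h | h)
      · exact Or.inr (hJ h)
      · exact Or.inl h
      · exact Or.inr h.1
    · rintro (h | h)
      · exact Or.inr (Or.inl h)
      · by_cases hk : k ∈ J
        · exact Or.inl hk
        · exact Or.inr (Or.inr ⟨h, hk⟩)
  rw [e3] at h1
  rw [e1]
  exact h1

/-- The identity in slot `i0`. -/
theorem he_coord (i0 : ι) : MLin F {i0} (fun y : ι → Y => y i0) := by
  refine ⟨?_, ?_, ?_⟩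
  · intro i hi y u w
    rw [Finset.mem_singleton] at hi
    subst hi
    simp
  · intro i hi y c u
    rw [Finset.mem_singleton] at hi
    subst hi
    simp
  · intro i hi y u
    rw [Finset.mem_singleton] at hi
    exact Function.update_of_ne (Ne.symm hi) _ _

theorem xi_mlin {I : Finset ι} {T : (ι → Y) → V} (hT : MLin F I T) {i0 : ι} (h0 : i0 ∈ I)
    {v : ι → Y} {G : V →ₗ[F] Y} {ξ : Finset ι → (ι → Y) → Y} (h : Xi T i0 v G ξ)
    (B : Finset ι) (hB : B ⊆ I.erase i0) : MLin F (insert i0 B) (ξ B) := by
  induction B using Finset.strongInduction with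
  | H B ih =>
    rcases Finset.eq_empty_or_nonempty B with rfl | hne
    · have e : ξ ∅ = fun y => y i0 - G (T (Function.update v i0 (y i0))) := funext h.empty
      rw [e]
      have h1 : MLin F (insert i0 ∅) (fun y : ι → Y => y i0) := he_coord i0
      have h2 : MLin F (insert i0 ∅)
          (fun y : ι → Y => T (Function.update v i0 (y i0))) := by
        have h3 := he_term hT h0 v (B := ∅) (J := ∅) hB (Finset.Subset.refl _)
          (g := fun y : ι → Y => y i0) h1
        simpa only [Finset.piecewise_empty] using h3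
      exact h1.sub' (h2.comp G)
    · have e : ξ B = fun y => - G (∑ J ∈ B.powerset.erase ∅,
          T (Function.update (J.piecewise y v) i0 (ξ (B \ J) y))) := funext (h.step B hne)
      rw [e]
      refine MLin.neg' (MLin.comp ?_ G)
      refine MLin.sum' _ fun J hJ => ?_
      have hJB : J ⊆ B := Finset.mem_powerset.1 (Finset.mem_of_mem_erase hJ)
      exact he_term hT h0 v hB hJB (ih (B \ J) (he_sdiff_ssubset hJ)
        (Finset.sdiff_subset.trans hB))

theorem HT_mlin {I : Finset ι} {T : (ι → Y) → V} (hT : MLin F I T) {i0 : ι} (h0 : i0 ∈ I)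
    {v : ι → Y} {G : V →ₗ[F] Y} {ξ : Finset ι → (ι → Y) → Y} (h : Xi T i0 v G ξ) :
    MLin F I (HT T (I.erase i0) i0 v G ξ) := by
  have h1 : MLin F I (HS T (I.erase i0) i0 v ξ) := by
    unfold HS
    refine MLin.sum' _ fun J hJ => ?_
    have hJB : J ⊆ I.erase i0 := Finset.mem_powerset.1 (Finset.mem_of_mem_erase hJ)
    have h2 := he_term hT h0 v (Finset.Subset.refl (I.erase i0)) hJB
      (xi_mlin hT h0 h ((I.erase i0) \ J) Finset.sdiff_subset)
    rwa [Finset.insert_erase h0] at h2
  unfold HT
  refine h1.sub' ?_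
  exact MLin.comp h1 ((slotMap hT h0 v).comp G)

/-- A reflexive generalized inverse. -/
theorem exists_ginv (A : Y →ₗ[F] V) :
    ∃ G : V →ₗ[F] Y, (∀ x, A (G (A x)) = A x) ∧ (∀ w, G (A (G w)) = G w) ∧
      Module.finrank F (LinearMap.range G) = Module.finrank F (LinearMap.range A) := by
  obtain ⟨s, hs⟩ := A.rangeRestrict.exists_rightInverse_of_surjective A.range_rangeRestrict
  obtain ⟨p, hp⟩ := (LinearMap.range A).subtype.exists_leftInverse_of_injective
    (LinearMap.range A).ker_subtype
  have hs' : ∀ w : LinearMap.range A, A (s w) = w := by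
    intro w
    have := LinearMap.congr_fun hs w
    exact congrArg Subtype.val this
  have hp' : ∀ w : LinearMap.range A, p w = w := by
    intro w
    exact LinearMap.congr_fun hp w
  refine ⟨s.comp p, ?_, ?_, ?_⟩
  · intro x
    have h1 : p (A x) = ⟨A x, LinearMap.mem_range_self A x⟩ :=
      hp' ⟨A x, LinearMap.mem_range_self A x⟩
    rw [LinearMap.comp_apply, h1, hs']
  · intro w
    show s (p (A (s (p w)))) = s (p w)
    rw [hs', hp']
  · have hinj : Function.Injective s := by
      intro a b hab
      have h1 := congrArg A hab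
      rw [hs', hs'] at h1
      exact Subtype.ext h1
    have hsurj : LinearMap.range p = ⊤ := by
      rw [LinearMap.range_eq_top]
      intro w
      exact ⟨w, hp' w⟩
    rw [LinearMap.range_comp_of_range_eq_top s hsurj]
    exact LinearMap.finrank_range_of_inj hinj

end PRAR
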